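import Pool.Agent.RCN.Main

/-!
# Dividing a net of a cube into a net of a smaller cube and nets of unit cubes
-/

namespace Pool.Agent.Results.MP_404bc2_co.AllPairs

open Pool.Agent.RepCube

/-- For all integers `1 < b < c` some polyomino which is a net of the cube of side `c` can be
divided into one polyomino which is a net of the cube of side `b` and `c ^ 2 - b ^ 2` polyominoes
which are nets of the unit cube. -/
theorem result (b c : ℕ) (hb : 1 < b) (hbc : b < c) :
    ∃ (P R : Finset Cell) (U : Finset (Finset Cell)), IsNet P c ∧ IsNet R b ∧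
      U.card = c ^ 2 - b ^ 2 ∧ (∀ S ∈ U, IsNet S 1) ∧
      (∀ S ∈ U, ∀ S' ∈ U, S ≠ S' → Disjoint S S') ∧ (∀ S ∈ U, Disjoint R S) ∧
      P = R ∪ U.biUnion id :=
  RCN.main b c hb hbc

end Pool.Agent.Results.MP_404bc2_co.AllPairs
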